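import Pool.Agent.Helper71.PR.Goals

/-!
# Project PR, packet DETC: strict log-concavity of the determinant at the midpoint
-/

set_option autoImplicit false

namespace Pool.Agent.Helper20.PR

open Matrix
open Pool.Agent.Helper71.PR

open scoped MatrixOrder in
/-- a positive definite matrix is `Cᴴ C` with `C` invertible -/
theorem exists_fac {ρ : ℕ} {A : Mt ρ} (hA : A.PosDef) : ∃ C : Mt ρ, IsUnit C ∧ A = Cᴴ * C := by
  obtain ⟨C, hC, h⟩ := CStarAlgebra.isStrictlyPositive_iff_eq_star_mul_self.mp hA.isStrictlyPositive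
  exact ⟨C, hC, h⟩

/-- the case `A = 1` -/
theorem det_one_add {ρ : ℕ} {M : Mt ρ} (hM : M.PosDef) (hd : M.det = 1) (hne : M ≠ 1) :
    1 < ((1 / 2 : ℝ) • (1 + M)).det := by
  have hH := hM.1
  set m := hH.eigenvalues with hm
  set U : Mt ρ := (hH.eigenvectorUnitary : Mt ρ) with hU
  have hsp : M = U * diagonal m * star U := by
    have := hH.spectral_theorem
    rw [Unitary.conjStarAlgAut_apply] at this
    exact this
  have hUU : U * star U = 1 := Unitary.coe_mul_star_self _
  have hUd : U.det * (star U).det = 1 := by rw [← det_mul, hUU, det_one]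
  have hpos : ∀ i, 0 < m i := fun i => hM.eigenvalues_pos i
  have hprod : ∏ i, m i = 1 := by
    have := hH.det_eq_prod_eigenvalues
    rw [hd] at this
    exact this.symm
  have h1 : (1 / 2 : ℝ) • (1 + M) = U * diagonal (fun i => (1 + m i) / 2) * star U := by
    have e : diagonal (fun i => (1 + m i) / 2) = (1 / 2 : ℝ) • ((1 : Mt ρ) + diagonal m) := by
      ext i j
      by_cases hij : i = j
      · subst hij; simp; ring
      · simp [hij]
    rw [e]
    conv_lhs => rw [← hUU, hsp]
    simp only [Matrix.mul_smul, Matrix.smul_mul, Matrix.mul_add, Matrix.add_mul, Matrix.mul_one]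
  have h2 : ((1 / 2 : ℝ) • (1 + M)).det = ∏ i, (1 + m i) / 2 := by
    rw [h1, det_mul, det_mul, det_diagonal, mul_right_comm, hUd, one_mul]
  rw [h2]
  have h3 : ∏ i, √(m i) = 1 := by
    rw [← Real.sqrt_prod _ (fun i _ => (hpos i).le), hprod, Real.sqrt_one]
  rw [← h3]
  refine Finset.prod_lt_prod (fun i _ => Real.sqrt_pos.2 (hpos i)) (fun i _ => ?_) ?_
  · nlinarith [Real.sq_sqrt (hpos i).le, sq_nonneg (√(m i) - 1)]
  · by_contra hcon
    push Not at hcon
    have hall : ∀ i, m i = 1 := by
      intro i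
      have h4 := hcon i (Finset.mem_univ i)
      have h5 := Real.sq_sqrt (hpos i).le
      have h6 : (√(m i) - 1) ^ 2 ≤ 0 := by nlinarith
      have h7 : √(m i) - 1 = 0 := by
        have := le_antisymm h6 (sq_nonneg _)
        exact pow_eq_zero_iff (by norm_num) |>.1 this
      have h8 : √(m i) = 1 := by linarith
      rw [h8] at h5
      linarith
    apply hne
    have e : diagonal m = (1 : Mt ρ) := by
      rw [show m = fun _ => (1 : ℝ) from funext hall]
      exact diagonal_one
    rw [hsp, e, Matrix.mul_one, hUU]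

theorem detc : G_DETC := by
  intro ρ A B hA hB hdet hne
  obtain ⟨C, hC, hAC⟩ := exists_fac hA
  have hCd : IsUnit C.det := (isUnit_iff_isUnit_det C).1 hC
  set D := C⁻¹ with hD
  have hCD : C * D = 1 := mul_nonsing_inv C hCd
  have hDC : D * C = 1 := nonsing_inv_mul C hCd
  have hDCs : Cᴴ * Dᴴ = 1 := by rw [← conjTranspose_mul, hDC, conjTranspose_one]
  set M := Dᴴ * B * D with hM
  have hMpd : M.PosDef := by
    refine hB.conjTranspose_mul_mul_same ?_
    rw [mulVec_injective_iff_isUnit]
    exact ⟨⟨D, C, hDC, hCD⟩, rfl⟩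
  have hBM : B = Cᴴ * M * C := by
    rw [hM]
    calc B = (Cᴴ * Dᴴ) * B * (D * C) := by rw [hDCs, hDC, Matrix.one_mul, Matrix.mul_one]
      _ = Cᴴ * (Dᴴ * B * D) * C := by simp only [Matrix.mul_assoc]
  have hAd : A.det = Cᴴ.det * C.det := by rw [hAC, det_mul]
  have hBd : B.det = A.det * M.det := by
    rw [hBM, det_mul, det_mul, hAd]; ring
  have hAp := hA.det_pos
  have hMd : M.det = 1 := by
    have : A.det * M.det = A.det * 1 := by rw [← hBd, mul_one, hdet]
    exact mul_left_cancel₀ hAp.ne' this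
  have hM1 : M ≠ 1 := by
    intro h
    apply hne
    rw [hBM, h, Matrix.mul_one, hAC]
  have key := det_one_add hMpd hMd hM1
  have hs : (1 / 2 : ℝ) • (A + B) = Cᴴ * ((1 / 2 : ℝ) • (1 + M)) * C := by
    conv_lhs => rw [hBM, hAC]
    simp only [Matrix.mul_smul, Matrix.smul_mul, Matrix.mul_add, Matrix.add_mul, Matrix.mul_one]
  rw [hs, det_mul, det_mul, mul_right_comm, ← hAd]
  nlinarith

end Pool.Agent.Helper20.PR
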